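import Pool.Agent.H606.GU.Stm

/-!
# Project GU, task INT: integrals of the correlation function over the cells
-/

set_option autoImplicit false

open MeasureTheory Filter Topology Finset
open Pool.Agent.H606.GU

namespace Pool.Agent.H297.GU.INT

/-! ### The sets -/

theorem tile_eq (k : ℕ) (a : ℝ) (i : ℕ) : tile k a i =
    Set.pi Set.univ fun _ => Set.Ico ((i : ℝ) * a) (((i : ℝ) + 1) * a) := by
  ext y
  simp [tile, Set.mem_pi]

theorem tile_meas (k : ℕ) (a : ℝ) (i : ℕ) : MeasurableSet (tile k a i) := by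
  rw [tile_eq]
  exact MeasurableSet.univ_pi fun _ => measurableSet_Ico

theorem tile_vol (k : ℕ) {a : ℝ} (ha : 0 < a) (i : ℕ) :
    volume (tile k a i) = ENNReal.ofReal (a ^ k) := by
  rw [tile_eq, volume_pi_pi]
  have e : ((i : ℝ) + 1) * a - (i : ℝ) * a = a := by ring
  simp only [Real.volume_Ico, e, Finset.prod_const, Finset.card_univ, Fintype.card_fin]
  rw [ENNReal.ofReal_pow ha.le]

theorem tile_fin (k : ℕ) {a : ℝ} (ha : 0 < a) (i : ℕ) : volume (tile k a i) ≠ ⊤ := by
  rw [tile_vol k ha]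
  exact ENNReal.ofReal_ne_top

theorem mix_self (k : ℕ) (a : ℝ) (i : ℕ) : mix k a i i = tile (k + 1) a i := by
  ext y
  simp only [mix, tile, Set.mem_ofPred_eq]
  rw [Fin.forall_fin_succ']

/-! ### Integrability of bounded continuous functions -/

theorem int_bdd {α : Type} [MeasurableSpace α] [TopologicalSpace α] [OpensMeasurableSpace α]
    [SecondCountableTopologyEither α ℝ] {μ : Measure α} {s : Set α} (hs : μ s ≠ ⊤) {f : α → ℝ}
    (hf : Continuous f) {C : ℝ} (hC : ∀ x, |f x| ≤ C) : IntegrableOn f s μ := by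
  have : IsFiniteMeasure (μ.restrict s) := ⟨by
    rw [Measure.restrict_apply_univ]
    exact hs.lt_top⟩
  exact Integrable.of_bound hf.aestronglyMeasurable C (Eventually.of_forall fun x => by
    rw [Real.norm_eq_abs]; exact hC x)

theorem sn_cont (k : ℕ) : Continuous (fun z : (Fin k → ℝ) × ℝ => sn z.1 z.2) := by
  unfold sn
  exact Continuous.finSnoc continuous_fst continuous_snd

/-! ### Translations -/

theorem tile_shift (hRHO : S_RHO) (k : ℕ) (a : ℝ) (i : ℕ) :
    ∫ y in tile k a i, rho y = mm k a := by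
  let c : Fin k → ℝ := fun _ => (i : ℝ) * a
  have hmp : MeasurePreserving (fun y : Fin k → ℝ => y + c) volume volume :=
    measurePreserving_add_right volume c
  have hemb : MeasurableEmbedding (fun y : Fin k → ℝ => y + c) :=
    (MeasurableEquiv.addRight c).measurableEmbedding
  have h := hmp.setIntegral_preimage_emb hemb (fun y => rho y) (tile k a i)
  rw [← h, mm]
  have e1 : (fun y : Fin k → ℝ => y + c) ⁻¹' (tile k a i) = tile k a 0 := by
    ext y
    simp only [tile, Set.mem_preimage, Set.mem_ofPred_eq, Pi.add_apply, c, Nat.cast_zero, zero_mul,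
      zero_add, one_mul]
    refine forall_congr' fun l => ?_
    constructor
    · rintro ⟨h1, h2⟩
      constructor <;> linarith
    · rintro ⟨h1, h2⟩
      constructor <;> linarith
  rw [e1]
  refine setIntegral_congr_fun (tile_meas k a 0) fun y _ => ?_
  have h2 := hRHO.2.2.1 (Fin k) y (-((i : ℝ) * a))
  show rho (y + c) = rho y
  rw [← h2]
  congr 1
  funext l
  show y l + (i : ℝ) * a = y l - -((i : ℝ) * a)
  ring

/-! ### Two blocks -/

/-- the index equivalence -/
def e2 (k : ℕ) : Fin k ⊕ Fin k ≃ Fin 2 × Fin k where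
  toFun := Sum.elim (fun l => (0, l)) (fun l => (1, l))
  invFun := fun q => if q.1 = 0 then Sum.inl q.2 else Sum.inr q.2
  left_inv := by
    rintro (l | l) <;> simp
  right_inv := by
    rintro ⟨j, l⟩
    fin_cases j <;> simp

/-- the equivalence of the spaces -/
noncomputable def TT (k : ℕ) : (Fin k → ℝ) × (Fin k → ℝ) ≃ᵐ (Fin 2 × Fin k → ℝ) :=
  (MeasurableEquiv.sumPiEquivProdPi fun _ : Fin k ⊕ Fin k => ℝ).symm.trans
    (MeasurableEquiv.piCongrLeft (fun _ : Fin 2 × Fin k => ℝ) (e2 k))

theorem TT_mp (k : ℕ) : MeasurePreserving (TT k) volume volume :=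
  (volume_measurePreserving_piCongrLeft (fun _ : Fin 2 × Fin k => ℝ) (e2 k)).comp
    (volume_measurePreserving_sumPiEquivProdPi_symm fun _ : Fin k ⊕ Fin k => ℝ)

theorem TT_zero (k : ℕ) (z : (Fin k → ℝ) × (Fin k → ℝ)) (l : Fin k) : TT k z (0, l) = z.1 l := by
  exact (Equiv.piCongrLeft_apply_apply (fun _ : Fin 2 × Fin k => ℝ) (e2 k)
    ((MeasurableEquiv.sumPiEquivProdPi fun _ : Fin k ⊕ Fin k => ℝ).symm z) (Sum.inl l)).trans rfl

theorem TT_one (k : ℕ) (z : (Fin k → ℝ) × (Fin k → ℝ)) (l : Fin k) : TT k z (1, l) = z.2 l := by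
  exact (Equiv.piCongrLeft_apply_apply (fun _ : Fin 2 × Fin k => ℝ) (e2 k)
    ((MeasurableEquiv.sumPiEquivProdPi fun _ : Fin k ⊕ Fin k => ℝ).symm z) (Sum.inr l)).trans rfl

theorem two_le (hRHO : S_RHO) (hFIS : S_FIS) (k : ℕ) {a : ℝ} (ha : 0 < a) (i i' : ℕ) :
    ∫ y in two k a i i', rho y ≤ mm k a ^ 2 := by
  have h := (TT_mp k).setIntegral_preimage_emb (TT k).measurableEmbedding (fun y => rho y)
    (two k a i i')
  rw [← h]
  have e1 : (TT k) ⁻¹' (two k a i i') = tile k a i ×ˢ tile k a i' := by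
    ext z
    simp only [two, tile, Set.mem_preimage, Set.mem_ofPred_eq, Set.mem_prod, TT_zero, TT_one]
  rw [e1]
  have hsq : mm k a ^ 2 = ∫ z in tile k a i ×ˢ tile k a i', rho z.1 * rho z.2 := by
    rw [Measure.volume_eq_prod, setIntegral_prod_mul, tile_shift hRHO, tile_shift hRHO, sq]
  rw [hsq]
  have hms : MeasurableSet (tile k a i ×ˢ tile k a i') := (tile_meas k a i).prod (tile_meas k a i')
  have hfin : volume (tile k a i ×ˢ tile k a i') ≠ ⊤ := by
    rw [Measure.volume_eq_prod, Measure.prod_prod]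
    exact ENNReal.mul_ne_top (tile_fin k ha i) (tile_fin k ha i')
  have hb : ∀ (β : Type) [Fintype β] [DecidableEq β] (y : β → ℝ), |rho y| ≤ 1 := by
    intro β _ _ y
    obtain ⟨-, h1, h2⟩ := hFIS.1 β y
    rw [abs_of_nonneg h1]
    exact h2
  have hcont : ∀ (β : Type) [Fintype β] [DecidableEq β], Continuous (rho : (β → ℝ) → ℝ) :=
    fun β _ _ => hRHO.1 β
  have hT : Continuous (TT k) := by
    refine continuous_pi fun q => ?_
    obtain ⟨j, l⟩ := q
    fin_cases j
    · have : (fun z => TT k z (0, l)) = fun z => z.1 l := funext fun z => TT_zero k z l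
      show Continuous fun z => TT k z (0, l)
      rw [this]
      exact (continuous_apply l).comp continuous_fst
    · have : (fun z => TT k z (1, l)) = fun z => z.2 l := funext fun z => TT_one k z l
      show Continuous fun z => TT k z (1, l)
      rw [this]
      exact (continuous_apply l).comp continuous_snd
  refine setIntegral_mono_on ?_ ?_ hms fun z _ => ?_
  · exact int_bdd hfin ((hcont _).comp hT) fun z => hb _ _
  · refine int_bdd (C := 1) hfin (((hcont _).comp continuous_fst).mul ((hcont _).comp continuous_snd))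
      fun z => ?_
    rw [abs_mul]
    exact mul_le_one₀ (hb _ _) (abs_nonneg _) (hb _ _)
  · have h1 := hFIS.2.2.1 2 (Fin k) (TT k z)
    rw [Fin.prod_univ_two] at h1
    have e2 : (fun l => TT k z (0, l)) = z.1 := funext fun l => TT_zero k z l
    have e3 : (fun l => TT k z (1, l)) = z.2 := funext fun l => TT_one k z l
    rw [e2, e3] at h1
    exact h1

/-! ### One more coordinate -/

theorem sn_last {k : ℕ} (y : Fin k → ℝ) (v : ℝ) : sn y v (Fin.last k) = v := by
  simp [sn]

theorem sn_castSucc {k : ℕ} (y : Fin k → ℝ) (v : ℝ) (l : Fin k) : sn y v l.castSucc = y l := by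
  simp [sn]

/-- the map `(v, y) ↦ sn y v` -/
noncomputable def SS (k : ℕ) : ℝ × (Fin k → ℝ) ≃ᵐ (Fin (k + 1) → ℝ) :=
  (MeasurableEquiv.piFinSuccAbove (fun _ : Fin (k + 1) => ℝ) (Fin.last k)).symm

theorem SS_mp (k : ℕ) : MeasurePreserving (SS k) volume volume :=
  (volume_preserving_piFinSuccAbove (fun _ : Fin (k + 1) => ℝ) (Fin.last k)).symm _

theorem SS_apply (k : ℕ) (z : ℝ × (Fin k → ℝ)) : SS k z = sn z.2 z.1 := by
  show (Fin.last k).insertNth z.1 z.2 = sn z.2 z.1
  rw [Fin.insertNth_last']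
  rfl

/-- the interval of the tile -/
def II (a : ℝ) (i : ℕ) : Set ℝ := Set.Ico ((i : ℝ) * a) (((i : ℝ) + 1) * a)

section six

variable (hRHO : S_RHO) (hFIS : S_FIS)

include hRHO hFIS

theorem rho_abs {β : Type} [Fintype β] [DecidableEq β] (y : β → ℝ) : |rho y| ≤ 1 := by
  obtain ⟨-, h1, h2⟩ := hFIS.1 β y
  rw [abs_of_nonneg h1]
  exact h2

theorem int_prod (k : ℕ) {a : ℝ} (ha : 0 < a) (i i' : ℕ) :
    IntegrableOn (fun z : (Fin k → ℝ) × ℝ => rho (sn z.1 z.2)) (tile k a i ×ˢ II a i')
      ((volume : Measure (Fin k → ℝ)).prod volume) := by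
  refine int_bdd ?_ ((hRHO.1 _).comp (sn_cont k)) fun z => rho_abs hRHO hFIS _
  rw [Measure.prod_prod]
  refine ENNReal.mul_ne_top (tile_fin k ha i) ?_
  rw [II, Real.volume_Ico]
  exact ENNReal.ofReal_ne_top

theorem mix_int (k : ℕ) {a : ℝ} (ha : 0 < a) (i i' : ℕ) :
    ∫ y in mix k a i i', rho y = ∫ y in tile k a i, ∫ v in II a i', rho (sn y v) := by
  have h := (SS_mp k).setIntegral_preimage_emb (SS k).measurableEmbedding (fun y => rho y)
    (mix k a i i')
  rw [← h]
  have e1 : (SS k) ⁻¹' (mix k a i i') = II a i' ×ˢ tile k a i := by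
    ext z
    simp only [mix, tile, II, Set.mem_preimage, Set.mem_ofPred_eq, Set.mem_prod, SS_apply, sn_last,
      sn_castSucc, Set.mem_Ico]
    tauto
  rw [e1, ← setIntegral_prod _ (int_prod hRHO hFIS k ha i i')]
  have hsw : MeasurePreserving (Prod.swap : (Fin k → ℝ) × ℝ → ℝ × (Fin k → ℝ))
      ((volume : Measure (Fin k → ℝ)).prod volume) (volume.prod volume) := Measure.measurePreserving_swap
  have h2 := hsw.setIntegral_preimage_emb MeasurableEquiv.prodComm.measurableEmbedding
    (fun z => rho (SS k z)) (II a i' ×ˢ tile k a i)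
  rw [Measure.volume_eq_prod, ← h2, Set.preimage_swap_prod]
  refine setIntegral_congr_fun ((tile_meas k a i).prod measurableSet_Ico) fun z _ => ?_
  simp only [SS_apply]
  rfl

theorem in_int (k : ℕ) {a : ℝ} (ha : 0 < a) (i i' : ℕ) :
    IntegrableOn (fun y => ∫ v in II a i', rho (sn y v)) (tile k a i) := by
  have h := int_prod hRHO hFIS k ha i i'
  rw [IntegrableOn, ← Measure.prod_restrict] at h
  exact h.integral_prod_left

theorem v_int {k : ℕ} (y : Fin k → ℝ) (b c : ℝ) :
    IntegrableOn (fun v => rho (sn y v)) (Set.Ico b c) := by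
  refine int_bdd ?_ ((hRHO.1 _).comp ((sn_cont k).comp (by fun_prop : Continuous fun v : ℝ => (y, v))))
    fun v => rho_abs hRHO hFIS _
  rw [Real.volume_Ico]
  exact ENNReal.ofReal_ne_top

theorem sum_II {k : ℕ} {a : ℝ} (ha : 0 < a) (y : Fin k → ℝ) (M : ℕ) :
    ∑ i' ∈ range M, ∫ v in II a i', rho (sn y v) = ∫ v in Set.Ico 0 ((M : ℝ) * a), rho (sn y v) := by
  induction M with
  | zero => simp
  | succ M ih =>
    rw [Finset.sum_range_succ, ih]
    have e : Set.Ico 0 (((M + 1 : ℕ) : ℝ) * a) = Set.Ico 0 ((M : ℝ) * a) ∪ II a M := by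
      rw [II, Set.Ico_union_Ico_eq_Ico (by positivity) (by nlinarith)]
      push_cast
      rfl
    have hd : Disjoint (Set.Ico 0 ((M : ℝ) * a)) (II a M) := by
      rw [II, Set.Ico_disjoint_Ico]
      exact (min_le_left _ _).trans (le_max_right _ _)
    have hi2 : IntegrableOn (fun v => rho (sn y v)) (II a M) := v_int hRHO hFIS y _ _
    have hm2 : MeasurableSet (II a M) := measurableSet_Ico
    rw [e, setIntegral_union hd hm2 (v_int hRHO hFIS y _ _) hi2]

end six

theorem t_INT (hRHO : S_RHO) (hFIS : S_FIS) (hSUM : S_SUM) : S_INT := by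
  intro k a _ ha
  have hri : ∀ (k i : ℕ), IntegrableOn (fun y : Fin k → ℝ => rho y) (tile k a i) := fun k i =>
    int_bdd (tile_fin k ha i) (hRHO.1 _) fun y => rho_abs hRHO hFIS y
  refine ⟨⟨?_, ?_⟩, ?_, tile_shift hRHO k a, ?_, two_le hRHO hFIS k ha, ?_⟩
  · exact setIntegral_nonneg (tile_meas k a 0) fun y _ => (hFIS.1 _ y).2.1
  · have h1 : mm k a ≤ ∫ _y in tile k a 0, (1 : ℝ) := by
      refine setIntegral_mono_on (hri k 0) ?_ (tile_meas k a 0) fun y _ => (hFIS.1 _ y).2.2
      exact integrableOn_const (tile_fin k ha 0)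
    refine h1.trans (le_of_eq ?_)
    rw [setIntegral_const, smul_eq_mul, mul_one, Measure.real, tile_vol k ha,
      ENNReal.toReal_ofReal (by positivity)]
  · have h1 : mm 1 a = ∫ _y in tile 1 a 0, (1 : ℝ) := by
      refine setIntegral_congr_fun (tile_meas 1 a 0) fun y _ => ?_
      exact hRHO.2.2.2.1 (Fin 1) y
    rw [h1, setIntegral_const, smul_eq_mul, mul_one, Measure.real, tile_vol 1 ha,
      ENNReal.toReal_ofReal (by positivity), pow_one]
  · intro i
    rw [mix_self]
    exact tile_shift hRHO (k + 1) a i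
  · intro M
    have hrow : ∀ i, ∑ i' ∈ range M, ∫ y in mix k a i i', rho y =
        ((M : ℝ) * a - k) * mm k a +
          ∫ y in tile k a i, (∫ v in (Set.Ico 0 ((M : ℝ) * a))ᶜ, (rho y - rho (sn y v))) := by
      intro i
      rw [Finset.sum_congr rfl fun i' _ => mix_int hRHO hFIS k ha i i',
        ← integral_finsetSum _ fun i' _ => in_int hRHO hFIS k ha i i']
      have hpt : ∀ y : Fin k → ℝ, ∑ i' ∈ range M, ∫ v in II a i', rho (sn y v) =
          ((M : ℝ) * a - k) * rho y +
            ∫ v in (Set.Ico 0 ((M : ℝ) * a))ᶜ, (rho y - rho (sn y v)) := by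
        intro y
        rw [sum_II hRHO hFIS ha]
        obtain ⟨h1, h2⟩ := hSUM k y
        have h3 := integral_add_compl (measurableSet_Ico : MeasurableSet (Set.Ico (0 : ℝ) ((M : ℝ) * a))) h1
        have hc : IntegrableOn (fun _ : ℝ => rho y) (Set.Ico 0 ((M : ℝ) * a)) :=
          integrableOn_const (by rw [Real.volume_Ico]; exact ENNReal.ofReal_ne_top)
        rw [h2, integral_sub hc (v_int hRHO hFIS y _ _), setIntegral_const, smul_eq_mul, Measure.real, Real.volume_Ico,
          sub_zero, ENNReal.toReal_ofReal (by positivity)] at h3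
        linarith
      have hint : IntegrableOn (fun y : Fin k → ℝ =>
          ∫ v in (Set.Ico 0 ((M : ℝ) * a))ᶜ, (rho y - rho (sn y v))) (tile k a i) := by
        have h1 : (fun y : Fin k → ℝ => ∫ v in (Set.Ico 0 ((M : ℝ) * a))ᶜ, (rho y - rho (sn y v))) =
            fun y => ∑ i' ∈ range M, (∫ v in II a i', rho (sn y v)) - ((M : ℝ) * a - k) * rho y := by
          funext y
          rw [hpt y]
          ring
        rw [h1]
        refine Integrable.sub (integrable_finsetSum _ fun i' _ => in_int hRHO hFIS k ha i i') ?_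
        exact (hri k i).const_mul _
      rw [setIntegral_congr_fun (tile_meas k a i) fun y _ => hpt y,
        integral_add ((hri k i).const_mul _) hint, integral_const_mul, tile_shift hRHO]
    rw [Finset.sum_congr rfl fun i _ => hrow i, Finset.sum_add_distrib, Finset.sum_const,
      Finset.card_range, nsmul_eq_mul, tl]
    ring

end Pool.Agent.H297.GU.INT
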